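import Mathlib
import Pool.Agent.Helper5.CK.Defs
set_option autoImplicit false

/-!
# Project CK (critical multiplier), module V2: the elementary maps of the interior variation

Explicit constants for `hh p τ z`, `psi p τ z` of `Helper5.CK.Defs` and for the outer map
`WW e w0 w = w + e / (w - w0)`.
-/

namespace Pool.Agent.Helper47.CMV

open Complex ComplexConjugate Metric Set
open Pool.Agent.Helper5.CK

/-- the outer map -/
noncomputable def WW (e w0 w : ℂ) : ℂ := w + e / (w - w0)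

variable {p τ : ℂ} {ρ η : ℝ}

/-- the bound of `hh` -/
noncomputable def HH (ρ η : ℝ) : ℝ := 1 / ρ + 1 / η

/-- the Lipschitz constant of `hh` -/
noncomputable def LL (ρ η : ℝ) : ℝ := 1 / ρ ^ 2 + 1 / η ^ 2

theorem den_ge (hz0 : ‖p‖ ≤ 1 - η) {z : ℂ} (hz : ‖z‖ ≤ 1) :
    η ≤ ‖1 - conj p * z‖ := by
  have h1 : ‖conj p * z‖ ≤ 1 - η := by
    rw [norm_mul, Complex.norm_conj]
    calc ‖p‖ * ‖z‖ ≤ ‖p‖ * 1 := mul_le_mul_of_nonneg_left hz (norm_nonneg _)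
      _ = ‖p‖ := mul_one _
      _ ≤ 1 - η := hz0
  have h2 : ‖(1:ℂ)‖ - ‖conj p * z‖ ≤ ‖1 - conj p * z‖ := norm_sub_norm_le _ _
  rw [norm_one] at h2
  linarith

theorem den_ne (hη : 0 < η) (hz0 : ‖p‖ ≤ 1 - η) {z : ℂ} (hz : ‖z‖ ≤ 1) :
    1 - conj p * z ≠ 0 := by
  intro h
  have := den_ge hz0 hz
  rw [h, norm_zero] at this
  linarith

theorem ne_of_dist (hρ : 0 < ρ) {z w : ℂ} (hd : ρ ≤ ‖z - w‖) : z - w ≠ 0 := by
  intro h
  rw [h, norm_zero] at hd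
  linarith

theorem hh_norm_le (hρ : 0 < ρ) (hη : 0 < η) (hz0 : ‖p‖ ≤ 1 - η) {z : ℂ}
    (hz : ‖z‖ ≤ 1) (hd : ρ ≤ ‖z - p‖) : ‖hh p τ z‖ ≤ ‖τ‖ * HH ρ η := by
  have h0 : ‖p‖ ≤ 1 := by linarith
  have h1 : ‖τ * ((z + p) / (z - p))‖ ≤ ‖τ‖ * (2 / ρ) := by
    rw [norm_mul, norm_div]
    have h2 : ‖z + p‖ ≤ 2 := (norm_add_le _ _).trans (by linarith)
    exact mul_le_mul_of_nonneg_left (div_le_div₀ (by norm_num) h2 hρ hd) (norm_nonneg _)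
  have h4 : ‖conj τ * ((1 + conj p * z) / (1 - conj p * z))‖ ≤ ‖τ‖ * (2 / η) := by
    rw [norm_mul, norm_div, Complex.norm_conj]
    have h2 : ‖1 + conj p * z‖ ≤ 2 := by
      refine (norm_add_le _ _).trans ?_
      rw [norm_one, norm_mul, Complex.norm_conj]
      have : ‖p‖ * ‖z‖ ≤ 1 * 1 := mul_le_mul h0 hz (norm_nonneg _) zero_le_one
      linarith
    exact mul_le_mul_of_nonneg_left (div_le_div₀ (by norm_num) h2 hη (den_ge hz0 hz))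
      (norm_nonneg _)
  unfold hh HH
  rw [norm_mul]
  have h5 : ‖(1 / 2 : ℂ)‖ = 1 / 2 := by
    rw [norm_div, norm_one, RCLike.norm_ofNat]
  rw [h5]
  have h6 := norm_sub_le (τ * ((z + p) / (z - p))) (conj τ * ((1 + conj p * z) / (1 - conj p * z)))
  have h7 : ‖τ‖ * (1 / ρ + 1 / η) = 1 / 2 * (‖τ‖ * (2 / ρ) + ‖τ‖ * (2 / η)) := by
    ring
  rw [h7]
  exact mul_le_mul_of_nonneg_left (h6.trans (add_le_add h1 h4)) (by norm_num)

theorem hh_sub_eq {x y : ℂ} (h1 : x - p ≠ 0) (h2 : y - p ≠ 0)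
    (h3 : 1 - conj p * x ≠ 0) (h4 : 1 - conj p * y ≠ 0) :
    hh p τ x - hh p τ y = -(x - y) * (τ * p / ((x - p) * (y - p)) +
      conj τ * conj p / ((1 - conj p * x) * (1 - conj p * y))) := by
  unfold hh
  generalize conj p = c at *
  generalize conj τ = d at *
  have e1 : (x + p) / (x - p) - (y + p) / (y - p) =
      -(x - y) * (2 * p / ((x - p) * (y - p))) := by
    rw [div_sub_div _ _ h1 h2, ← mul_div_assoc]
    congr 1
    ring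
  have e2 : (1 + c * x) / (1 - c * x) - (1 + c * y) / (1 - c * y) =
      (x - y) * (2 * c / ((1 - c * x) * (1 - c * y))) := by
    rw [div_sub_div _ _ h3 h4, ← mul_div_assoc]
    congr 1
    ring
  have e3 : (1 / 2 : ℂ) * (τ * ((x + p) / (x - p)) - d * ((1 + c * x) / (1 - c * x))) -
      (1 / 2 : ℂ) * (τ * ((y + p) / (y - p)) - d * ((1 + c * y) / (1 - c * y))) =
      (1 / 2 : ℂ) * (τ * ((x + p) / (x - p) - (y + p) / (y - p)) -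
        d * ((1 + c * x) / (1 - c * x) - (1 + c * y) / (1 - c * y))) := by ring
  rw [e3, e1, e2]
  ring

theorem hh_sub_le (hρ : 0 < ρ) (hη : 0 < η) (hz0 : ‖p‖ ≤ 1 - η) {x y : ℂ}
    (hx : ‖x‖ ≤ 1) (hy : ‖y‖ ≤ 1) (hdx : ρ ≤ ‖x - p‖) (hdy : ρ ≤ ‖y - p‖) :
    ‖hh p τ x - hh p τ y‖ ≤ ‖τ‖ * LL ρ η * ‖x - y‖ := by
  have h0 : ‖p‖ ≤ 1 := by linarith
  rw [hh_sub_eq (ne_of_dist hρ hdx) (ne_of_dist hρ hdy) (den_ne hη hz0 hx) (den_ne hη hz0 hy),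
    norm_mul, norm_neg, mul_comm]
  refine mul_le_mul_of_nonneg_right ?_ (norm_nonneg _)
  have hBz : ‖τ‖ * ‖p‖ ≤ ‖τ‖ := by
    calc ‖τ‖ * ‖p‖ ≤ ‖τ‖ * 1 := mul_le_mul_of_nonneg_left h0 (norm_nonneg _)
      _ = ‖τ‖ := mul_one _
  have h1 : ‖τ * p / ((x - p) * (y - p))‖ ≤ ‖τ‖ / ρ ^ 2 := by
    rw [norm_div, norm_mul, norm_mul]
    refine div_le_div₀ (norm_nonneg _) hBz (by positivity) ?_
    rw [pow_two]
    exact mul_le_mul hdx hdy hρ.le (norm_nonneg _)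
  have h2 : ‖conj τ * conj p / ((1 - conj p * x) * (1 - conj p * y))‖ ≤ ‖τ‖ / η ^ 2 := by
    rw [norm_div, norm_mul, norm_mul, Complex.norm_conj, Complex.norm_conj]
    refine div_le_div₀ (norm_nonneg _) hBz (by positivity) ?_
    rw [pow_two]
    exact mul_le_mul (den_ge hz0 hx) (den_ge hz0 hy) hη.le (norm_nonneg _)
  unfold LL
  calc _ ≤ ‖τ‖ / ρ ^ 2 + ‖τ‖ / η ^ 2 := (norm_add_le _ _).trans (add_le_add h1 h2)
    _ = ‖τ‖ * (1 / ρ ^ 2 + 1 / η ^ 2) := by ring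

theorem hh_re {z : ℂ} (h1 : z - p ≠ 0) (h2 : 1 - conj p * z ≠ 0) :
    (hh p τ z).re =
      (1 - ‖z‖ ^ 2) * (τ * p / ((z - p) * (1 - p * conj z))).re := by
  have h3 : 1 - p * conj z ≠ 0 := by
    intro h
    apply h2
    have h4 := congrArg conj h
    simpa using h4
  have e1 : (conj τ * ((1 + conj p * z) / (1 - conj p * z))).re =
      (τ * ((1 + p * conj z) / (1 - p * conj z))).re := by
    rw [← Complex.conj_re]
    simp
  have e2 : (hh p τ z).re = (1 / 2) * (τ * ((z + p) / (z - p)) -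
      τ * ((1 + p * conj z) / (1 - p * conj z))).re := by
    unfold hh
    have : ((1 / 2 : ℂ) * (τ * ((z + p) / (z - p)) -
        conj τ * ((1 + conj p * z) / (1 - conj p * z)))).re =
        (1 / 2) * (τ * ((z + p) / (z - p)) -
        conj τ * ((1 + conj p * z) / (1 - conj p * z))).re := by
      have h5 : (1 / 2 : ℂ) = ((1 / 2 : ℝ) : ℂ) := by push_cast; ring
      rw [h5, Complex.re_ofReal_mul]
    rw [this, Complex.sub_re, e1, ← Complex.sub_re]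
  have hz2 : z * conj z = ((‖z‖ ^ 2 : ℝ) : ℂ) := by
    rw [Complex.mul_conj, Complex.normSq_eq_norm_sq]
  have e3 : τ * ((z + p) / (z - p)) - τ * ((1 + p * conj z) / (1 - p * conj z)) =
      ((2 * (1 - ‖z‖ ^ 2) : ℝ) : ℂ) * (τ * p / ((z - p) * (1 - p * conj z))) := by
    have h6 : ((2 * (1 - ‖z‖ ^ 2) : ℝ) : ℂ) = 2 * (1 - z * conj z) := by
      rw [hz2]; push_cast; ring
    rw [h6, ← mul_sub, div_sub_div _ _ h1 h3]
    field_simp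
    ring
  rw [e2, e3, Complex.re_ofReal_mul]
  ring

theorem hh_re_abs_le (hρ : 0 < ρ) (hη : 0 < η) (hz0 : ‖p‖ ≤ 1 - η) {z : ℂ}
    (hz : ‖z‖ ≤ 1) (hd : ρ ≤ ‖z - p‖) :
    |(hh p τ z).re| ≤ ‖τ‖ * (1 / (ρ * η)) * (1 - ‖z‖ ^ 2) := by
  have h0 : ‖p‖ ≤ 1 := by linarith
  have hz1 : 0 ≤ 1 - ‖z‖ ^ 2 := by nlinarith [norm_nonneg z]
  rw [hh_re (ne_of_dist hρ hd) (den_ne hη hz0 hz), abs_mul, abs_of_nonneg hz1, mul_comm]
  refine mul_le_mul_of_nonneg_right ?_ hz1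
  refine (Complex.abs_re_le_norm _).trans ?_
  rw [norm_div, norm_mul, norm_mul]
  have hBz : ‖τ‖ * ‖p‖ ≤ ‖τ‖ := by
    calc ‖τ‖ * ‖p‖ ≤ ‖τ‖ * 1 := mul_le_mul_of_nonneg_left h0 (norm_nonneg _)
      _ = ‖τ‖ := mul_one _
  have h3 : ‖1 - p * conj z‖ = ‖1 - conj p * z‖ := by
    rw [← Complex.norm_conj]
    simp
  rw [h3]
  calc ‖τ‖ * ‖p‖ / (‖z - p‖ * ‖1 - conj p * z‖) ≤ ‖τ‖ / (ρ * η) :=
        div_le_div₀ (norm_nonneg _) hBz (by positivity)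
          (mul_le_mul hd (den_ge hz0 hz) hη.le (norm_nonneg _))
    _ = ‖τ‖ * (1 / (ρ * η)) := by ring

theorem hh_zero (hz0 : p ≠ 0) : hh p τ 0 = -((τ.re : ℝ) : ℂ) := by
  unfold hh
  have h1 : τ * ((0 + p) / (0 - p)) = -τ := by
    rw [zero_add, zero_sub, div_neg, div_self hz0]
    ring
  rw [h1, mul_zero, add_zero, sub_zero, div_one, mul_one]
  have h2 : τ + conj τ = ((2 * τ.re : ℝ) : ℂ) := Complex.add_conj τ
  have h3 : (1 / 2 : ℂ) * (-τ - conj τ) = -(1 / 2) * (τ + conj τ) := by ring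
  rw [h3, h2]
  push_cast
  ring

theorem hh_differentiableAt {z : ℂ} (h1 : z - p ≠ 0) (h2 : 1 - conj p * z ≠ 0) :
    DifferentiableAt ℂ (hh p τ) z := by
  unfold hh
  have e1 : DifferentiableAt ℂ (fun z => (z + p) / (z - p)) z :=
    DifferentiableAt.div (by fun_prop) (by fun_prop) h1
  have e2 : DifferentiableAt ℂ (fun z => (1 + conj p * z) / (1 - conj p * z)) z :=
    DifferentiableAt.div (by fun_prop) (by fun_prop) h2
  exact ((e1.const_mul _).sub (e2.const_mul _)).const_mul _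

theorem psi_zero : psi p τ 0 = 0 := by
  unfold psi
  rw [zero_mul]

theorem psi_ne {z : ℂ} (hz : z ≠ 0) : psi p τ z ≠ 0 :=
  mul_ne_zero hz (Complex.exp_ne_zero _)

theorem psi_differentiableAt {z : ℂ} (h1 : z - p ≠ 0) (h2 : 1 - conj p * z ≠ 0) :
    DifferentiableAt ℂ (psi p τ) z := by
  unfold psi
  exact differentiableAt_id.mul (hh_differentiableAt (τ := τ) h1 h2).cexp

theorem psi_hasDerivAt_zero (hz0 : p ≠ 0) :
    HasDerivAt (psi p τ) (Complex.exp (-((τ.re : ℝ) : ℂ))) 0 := by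
  have h1 : (0:ℂ) - p ≠ 0 := by
    rw [zero_sub]
    exact neg_ne_zero.2 hz0
  have h2 : 1 - conj p * (0:ℂ) ≠ 0 := by
    rw [mul_zero, sub_zero]
    exact one_ne_zero
  have h3 : DifferentiableAt ℂ (fun z => Complex.exp (hh p τ z)) 0 :=
    (hh_differentiableAt (τ := τ) h1 h2).cexp
  have h4 := (hasDerivAt_id (0:ℂ)).mul h3.hasDerivAt
  have h5 : (1:ℂ) * Complex.exp (hh p τ 0) + id (0:ℂ) *
      deriv (fun z => Complex.exp (hh p τ z)) 0 = Complex.exp (-((τ.re : ℝ) : ℂ)) := by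
    rw [hh_zero hz0]
    simp only [id_eq, zero_mul, add_zero, one_mul]
  rw [h5] at h4
  exact h4

/-- `psi` maps the part of the disc away from the pole into the disc -/
theorem psi_norm_lt (hρ : 0 < ρ) (hη : 0 < η) (hz0 : ‖p‖ ≤ 1 - η) {z : ℂ}
    (hz : ‖z‖ < 1) (hd : ρ ≤ ‖z - p‖) (htb : 2 * (‖τ‖ * (1 / (ρ * η))) < 1) :
    ‖psi p τ z‖ < 1 := by
  have hc : 0 ≤ 1 / (ρ * η) := by positivity
  have hn := norm_nonneg z
  have h1 := hh_re_abs_le (τ := τ) hρ hη hz0 hz.le hd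
  have h2 : (hh p τ z).re ≤ ‖τ‖ * (1 / (ρ * η)) * (1 - ‖z‖ ^ 2) := (le_abs_self _).trans h1
  unfold psi
  rw [norm_mul, Complex.norm_exp]
  set x := (hh p τ z).re with hx
  set c := ‖τ‖ * (1 / (ρ * η)) with hcd
  have htc : 0 ≤ c := mul_nonneg (norm_nonneg _) hc
  have h5 : x < 1 - ‖z‖ := by
    have h6 : c * (1 - ‖z‖ ^ 2) = (c * (1 + ‖z‖)) * (1 - ‖z‖) := by ring
    have h7 : c * (1 + ‖z‖) < 1 := by nlinarith
    have h8 : 0 < 1 - ‖z‖ := by linarith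
    nlinarith
  have h9 : 0 < Real.exp x := Real.exp_pos x
  rcases eq_or_lt_of_le hn with h0 | h0
  · rw [← h0, zero_mul]
    exact one_pos
  have h10 : ‖z‖ < 1 - x := by linarith
  have h11 : 1 - x ≤ Real.exp (-x) := by
    have := Real.add_one_le_exp (-x)
    linarith
  calc ‖z‖ * Real.exp x < Real.exp (-x) * Real.exp x :=
        mul_lt_mul_of_pos_right (h10.trans_le h11) h9
    _ = 1 := by rw [← Real.exp_add, neg_add_cancel, Real.exp_zero]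

theorem psi_sub_le (hρ : 0 < ρ) (hη : 0 < η) (hz0 : ‖p‖ ≤ 1 - η) {z : ℂ}
    (hz : ‖z‖ ≤ 1) (hd : ρ ≤ ‖z - p‖) (htH : ‖τ‖ * HH ρ η ≤ 1) :
    ‖psi p τ z - z‖ ≤ 2 * (‖τ‖ * HH ρ η) * ‖z‖ := by
  have h1 := hh_norm_le (τ := τ) hρ hη hz0 hz hd
  have h2 : psi p τ z - z = z * (Complex.exp (hh p τ z) - 1) := by
    unfold psi
    ring
  rw [h2, norm_mul, mul_comm]
  refine mul_le_mul_of_nonneg_right ?_ (norm_nonneg _)
  exact (Complex.norm_exp_sub_one_le (h1.trans htH)).trans (by linarith)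

theorem psi_expand (hρ : 0 < ρ) (hη : 0 < η) (hz0 : ‖p‖ ≤ 1 - η) {z : ℂ}
    (hz : ‖z‖ ≤ 1) (hd : ρ ≤ ‖z - p‖) (htH : ‖τ‖ * HH ρ η ≤ 1) :
    ‖psi p τ z - z - z * hh p τ z‖ ≤ (‖τ‖ * HH ρ η) ^ 2 * ‖z‖ := by
  have h1 := hh_norm_le (τ := τ) hρ hη hz0 hz hd
  have h2 : psi p τ z - z - z * hh p τ z =
      z * (Complex.exp (hh p τ z) - 1 - hh p τ z) := by
    unfold psi
    ring
  rw [h2, norm_mul, mul_comm]
  refine mul_le_mul_of_nonneg_right ?_ (norm_nonneg _)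
  refine (Complex.norm_exp_sub_one_sub_id_le (h1.trans htH)).trans ?_
  exact pow_le_pow_left₀ (norm_nonneg _) h1 2

theorem HH_nonneg (hρ : 0 < ρ) (hη : 0 < η) : 0 ≤ HH ρ η := by
  unfold HH
  positivity

theorem LL_nonneg (hρ : 0 < ρ) (hη : 0 < η) : 0 ≤ LL ρ η := by
  unfold LL
  positivity

/-- distance to `p` after `psi` -/
theorem psi_dist (hρ : 0 < ρ) (hη : 0 < η) (hz0 : ‖p‖ ≤ 1 - η) {z : ℂ}
    (hz : ‖z‖ ≤ 1) {d : ℝ} (hd : ρ ≤ ‖z - p‖) (hd' : d ≤ ‖z - p‖)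
    (htH : ‖τ‖ * HH ρ η ≤ 1) :
    d - 2 * (‖τ‖ * HH ρ η) ≤ ‖psi p τ z - p‖ := by
  have h1 := psi_sub_le (τ := τ) hρ hη hz0 hz hd htH
  have hH : 0 ≤ ‖τ‖ * HH ρ η := mul_nonneg (norm_nonneg _) (HH_nonneg hρ hη)
  have h2 : 2 * (‖τ‖ * HH ρ η) * ‖z‖ ≤ 2 * (‖τ‖ * HH ρ η) := by nlinarith [norm_nonneg z]
  have h3 : ‖z - p‖ ≤ ‖psi p τ z - p‖ + ‖psi p τ z - z‖ := by
    have h4 : z - p = (psi p τ z - p) - (psi p τ z - z) := by ring
    calc ‖z - p‖ = ‖(psi p τ z - p) - (psi p τ z - z)‖ := by rw [← h4]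
      _ ≤ _ := norm_sub_le _ _
  linarith

/-- `psi` moves differences by a factor between `1 - C‖τ‖` and `1 + C‖τ‖` -/
theorem psi_sub_sub_le (hρ : 0 < ρ) (hη : 0 < η) (hz0 : ‖p‖ ≤ 1 - η) {x y : ℂ}
    (hx : ‖x‖ ≤ 1) (hy : ‖y‖ ≤ 1) (hdx : ρ ≤ ‖x - p‖) (hdy : ρ ≤ ‖y - p‖)
    (htH : 2 * (‖τ‖ * HH ρ η) ≤ 1) :
    ‖psi p τ x - psi p τ y - (x - y)‖ ≤ ‖τ‖ * (2 * HH ρ η + 6 * LL ρ η) * ‖x - y‖ := by
  have h1 := hh_norm_le (τ := τ) hρ hη hz0 hx hdx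
  have h2 := hh_norm_le (τ := τ) hρ hη hz0 hy hdy
  have huv := hh_sub_le (τ := τ) hρ hη hz0 hx hy hdx hdy
  have htH0 : 0 ≤ ‖τ‖ * HH ρ η := mul_nonneg (norm_nonneg _) (HH_nonneg hρ hη)
  set u : ℂ := hh p τ x with hu
  set v : ℂ := hh p τ y with hv
  have huv1 : ‖u - v‖ ≤ 1 := by
    have := norm_sub_le u v
    linarith
  have hdec : psi p τ x - psi p τ y - (x - y) =
      (x - y) * (Complex.exp u - 1) + y * (Complex.exp v * (Complex.exp (u - v) - 1)) := by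
    unfold psi
    rw [← hu, ← hv, mul_sub (Complex.exp v), mul_one, ← Complex.exp_add]
    have : v + (u - v) = u := by ring
    rw [this]
    ring
  have hd1 : ‖Complex.exp u - 1‖ ≤ 2 * ‖u‖ := Complex.norm_exp_sub_one_le (by linarith)
  have hd2 : ‖Complex.exp (u - v) - 1‖ ≤ 2 * ‖u - v‖ := Complex.norm_exp_sub_one_le huv1
  have hup : ‖Complex.exp v‖ ≤ 3 := by
    have h5 : ‖Complex.exp v - 1‖ ≤ 2 * ‖v‖ := Complex.norm_exp_sub_one_le (by linarith)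
    have h6 : ‖Complex.exp v‖ - ‖(1:ℂ)‖ ≤ ‖Complex.exp v - 1‖ := norm_sub_norm_le _ _
    rw [norm_one] at h6
    linarith
  rw [hdec]
  refine (norm_add_le _ _).trans ?_
  rw [norm_mul, norm_mul, norm_mul]
  have h7 : ‖x - y‖ * ‖Complex.exp u - 1‖ ≤ ‖x - y‖ * (2 * (‖τ‖ * HH ρ η)) :=
    mul_le_mul_of_nonneg_left (hd1.trans (by linarith)) (norm_nonneg _)
  have h8 : ‖y‖ * (‖Complex.exp v‖ * ‖Complex.exp (u - v) - 1‖) ≤
      1 * (3 * (2 * (‖τ‖ * LL ρ η * ‖x - y‖))) := by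
    refine mul_le_mul hy ?_ (by positivity) zero_le_one
    exact mul_le_mul hup (hd2.trans (by linarith)) (norm_nonneg _) (by norm_num)
  calc _ ≤ ‖x - y‖ * (2 * (‖τ‖ * HH ρ η)) + 1 * (3 * (2 * (‖τ‖ * LL ρ η * ‖x - y‖))) :=
        add_le_add h7 h8
    _ = _ := by ring

/-- `1 / psi` moves differences by a factor `1 - C‖τ‖` at least -/
theorem psi_inv_sub_ge (hρ : 0 < ρ) (hη : 0 < η) (hz0 : ‖p‖ ≤ 1 - η) {x y : ℂ}
    (hx : ‖x‖ ≤ 1) (hy : ‖y‖ ≤ 1) (hx0 : x ≠ 0) (hy0 : y ≠ 0)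
    (hdx : ρ ≤ ‖x - p‖) (hdy : ρ ≤ ‖y - p‖) (htH : 2 * (‖τ‖ * HH ρ η) ≤ 1) :
    (1 - ‖τ‖ * (2 * HH ρ η + 6 * LL ρ η)) * ‖x⁻¹ - y⁻¹‖ ≤
      ‖(psi p τ x)⁻¹ - (psi p τ y)⁻¹‖ := by
  have hH0 := HH_nonneg hρ hη
  have hL0 := LL_nonneg hρ hη
  have htH0 : 0 ≤ ‖τ‖ * HH ρ η := mul_nonneg (norm_nonneg _) hH0
  have htL0 : 0 ≤ ‖τ‖ * LL ρ η := mul_nonneg (norm_nonneg _) hL0
  have h1 := hh_norm_le (τ := τ) hρ hη hz0 hx hdx
  have h2 := hh_norm_le (τ := τ) hρ hη hz0 hy hdy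
  have huv := hh_sub_le (τ := τ) hρ hη hz0 hx hy hdx hdy
  set u : ℂ := hh p τ x with hu
  set v : ℂ := hh p τ y with hv
  have huv1 : ‖u - v‖ ≤ 1 := by
    have := norm_sub_le u v
    linarith
  have hpx : (psi p τ x)⁻¹ = x⁻¹ * Complex.exp (-u) := by
    unfold psi
    rw [mul_inv, ← Complex.exp_neg]
  have hpy : (psi p τ y)⁻¹ = y⁻¹ * Complex.exp (-v) := by
    unfold psi
    rw [mul_inv, ← Complex.exp_neg]
  have hdec : (psi p τ x)⁻¹ - (psi p τ y)⁻¹ =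
      (x⁻¹ - y⁻¹) * Complex.exp (-u) - y⁻¹ * (Complex.exp (-u) * (Complex.exp (u - v) - 1)) := by
    rw [hpx, hpy, mul_sub (Complex.exp (-u)), mul_one, ← Complex.exp_add]
    have : -u + (u - v) = -v := by ring
    rw [this]
    ring
  have hu1 : ‖u‖ ≤ 1 / 2 := by linarith
  -- lower bound of exp (-u)
  have hlow : 1 - 2 * (‖τ‖ * HH ρ η) ≤ ‖Complex.exp (-u)‖ := by
    have h5 : ‖Complex.exp (-u) - 1‖ ≤ 2 * ‖-u‖ :=
      Complex.norm_exp_sub_one_le (by rw [norm_neg]; linarith)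
    rw [norm_neg] at h5
    have h6 : ‖(1:ℂ)‖ - ‖Complex.exp (-u)‖ ≤ ‖1 - Complex.exp (-u)‖ := norm_sub_norm_le _ _
    rw [norm_one, norm_sub_rev] at h6
    linarith
  have hup : ‖Complex.exp (-u)‖ ≤ 3 := by
    have h5 : ‖Complex.exp (-u) - 1‖ ≤ 2 * ‖-u‖ :=
      Complex.norm_exp_sub_one_le (by rw [norm_neg]; linarith)
    rw [norm_neg] at h5
    have h6 : ‖Complex.exp (-u)‖ - ‖(1:ℂ)‖ ≤ ‖Complex.exp (-u) - 1‖ := norm_sub_norm_le _ _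
    rw [norm_one] at h6
    linarith
  have hd2 : ‖Complex.exp (u - v) - 1‖ ≤ 2 * ‖u - v‖ := Complex.norm_exp_sub_one_le huv1
  have hnx : ‖x‖ ≠ 0 := norm_ne_zero_iff.2 hx0
  have hny : ‖y‖ ≠ 0 := norm_ne_zero_iff.2 hy0
  have hxy : ‖x - y‖ = ‖x‖ * ‖y‖ * ‖x⁻¹ - y⁻¹‖ := by
    have h5 : x - y = -(x * y * (x⁻¹ - y⁻¹)) := by
      field_simp
      ring
    rw [h5, norm_neg, norm_mul, norm_mul]
  have hsec : ‖y⁻¹ * (Complex.exp (-u) * (Complex.exp (u - v) - 1))‖ ≤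
      6 * (‖τ‖ * LL ρ η) * ‖x⁻¹ - y⁻¹‖ := by
    rw [norm_mul, norm_mul, norm_inv]
    have h5 : ‖Complex.exp (-u)‖ * ‖Complex.exp (u - v) - 1‖ ≤
        3 * (2 * (‖τ‖ * LL ρ η * ‖x - y‖)) :=
      mul_le_mul hup (hd2.trans (by linarith)) (norm_nonneg _) (by norm_num)
    calc ‖y‖⁻¹ * (‖Complex.exp (-u)‖ * ‖Complex.exp (u - v) - 1‖)
        ≤ ‖y‖⁻¹ * (3 * (2 * (‖τ‖ * LL ρ η * ‖x - y‖))) :=
          mul_le_mul_of_nonneg_left h5 (inv_nonneg.2 (norm_nonneg _))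
      _ = 6 * (‖τ‖ * LL ρ η) * (‖x‖ * ‖x⁻¹ - y⁻¹‖) := by
          rw [hxy]
          field_simp
          ring
      _ ≤ 6 * (‖τ‖ * LL ρ η) * (1 * ‖x⁻¹ - y⁻¹‖) := by
          refine mul_le_mul_of_nonneg_left ?_ (by positivity)
          exact mul_le_mul_of_nonneg_right hx (norm_nonneg _)
      _ = _ := by rw [one_mul]
  rw [hdec]
  have h7 := norm_sub_norm_le ((x⁻¹ - y⁻¹) * Complex.exp (-u))
    (y⁻¹ * (Complex.exp (-u) * (Complex.exp (u - v) - 1)))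
  rw [norm_mul (x⁻¹ - y⁻¹)] at h7
  have h8 : (1 - 2 * (‖τ‖ * HH ρ η)) * ‖x⁻¹ - y⁻¹‖ ≤ ‖x⁻¹ - y⁻¹‖ * ‖Complex.exp (-u)‖ := by
    rw [mul_comm]
    exact mul_le_mul_of_nonneg_left hlow (norm_nonneg _)
  nlinarith

/-! ### the outer map -/

variable {e w0 : ℂ}

theorem WW_sub {a c : ℂ} (ha : a - w0 ≠ 0) (hc : c - w0 ≠ 0) :
    WW e w0 a - WW e w0 c = (a - c) * (1 - e / ((a - w0) * (c - w0))) := by
  unfold WW
  field_simp
  ring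

theorem WW_quot_le {s : ℝ} (hs : 0 < s) {a c : ℂ} (ha : s ≤ ‖a - w0‖)
    (hc : s ≤ ‖c - w0‖) : ‖e / ((a - w0) * (c - w0))‖ ≤ ‖e‖ / s ^ 2 := by
  rw [norm_div, norm_mul]
  refine div_le_div₀ (norm_nonneg _) le_rfl (by positivity) ?_
  rw [pow_two]
  exact mul_le_mul ha hc hs.le (norm_nonneg _)

theorem WW_sub_ge {s : ℝ} (hs : 0 < s) {a c : ℂ} (ha : s ≤ ‖a - w0‖)
    (hc : s ≤ ‖c - w0‖) :
    (1 - ‖e‖ / s ^ 2) * ‖a - c‖ ≤ ‖WW e w0 a - WW e w0 c‖ := by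
  rw [WW_sub (ne_of_dist hs ha) (ne_of_dist hs hc), norm_mul, mul_comm]
  refine mul_le_mul_of_nonneg_left ?_ (norm_nonneg _)
  have h1 := WW_quot_le (e := e) hs ha hc
  have h2 : ‖(1:ℂ)‖ - ‖e / ((a - w0) * (c - w0))‖ ≤
      ‖1 - e / ((a - w0) * (c - w0))‖ := norm_sub_norm_le _ _
  rw [norm_one] at h2
  linarith

theorem WW_sub_le {s : ℝ} (hs : 0 < s) {a c : ℂ} (ha : s ≤ ‖a - w0‖)
    (hc : s ≤ ‖c - w0‖) :
    ‖WW e w0 a - WW e w0 c‖ ≤ (1 + ‖e‖ / s ^ 2) * ‖a - c‖ := by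
  rw [WW_sub (ne_of_dist hs ha) (ne_of_dist hs hc), norm_mul, mul_comm]
  refine mul_le_mul_of_nonneg_right ?_ (norm_nonneg _)
  have h1 := WW_quot_le (e := e) hs ha hc
  have h2 := norm_sub_le (1:ℂ) (e / ((a - w0) * (c - w0)))
  rw [norm_one] at h2
  linarith

theorem WW_id_le {s : ℝ} (hs : 0 < s) {w : ℂ} (hw : s ≤ ‖w - w0‖) :
    ‖WW e w0 w - w‖ ≤ ‖e‖ / s := by
  have h1 : WW e w0 w - w = e / (w - w0) := by
    unfold WW
    ring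
  rw [h1, norm_div]
  exact div_le_div₀ (norm_nonneg _) le_rfl hs hw

theorem WW_differentiableAt {w : ℂ} (hw : w - w0 ≠ 0) : DifferentiableAt ℂ (WW e w0) w := by
  unfold WW
  exact differentiableAt_id.add (DifferentiableAt.div (by fun_prop) (by fun_prop) hw)

end Pool.Agent.Helper47.CMV
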